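import Pool.Agent.H51.NE.Num

/-!
# The inequality for the eigenvalues and the sectional curvatures of an adapted frame
-/

set_option autoImplicit false

open scoped BigOperators

namespace Pool.Agent.H51.NE

/-- the integrand function -/
def FF (l : Fin 5 → ℝ) (K : Fin 5 → Fin 5 → ℝ) : ℝ :=
  1875 - 300 * (∑ i, l i ^ 2) + 80 * (∑ i, l i ^ 3) - 32 * ∑ i, ∑ j, l i * l j * K i j

/-- the estimate of the mixed term, in increasing order -/
theorem mixed {a : ℝ} (l : Fin 5 → ℝ) (K : Fin 5 → Fin 5 → ℝ) (hsym : ∀ i j, K i j = K j i)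
    (hd : ∀ i, K i i = 0) (hrow : ∀ i, ∑ j, K i j = 5 - l i) (hs : ∑ i, l i = 5)
    (hK : ∀ i j, i ≠ j → a ≤ K i j) (h01 : l 0 ≤ l 1) (h12 : l 1 ≤ l 2) (h13 : l 1 ≤ l 3)
    (h14 : l 1 ≤ l 4) :
    ∑ i, ∑ j, l i * l j * K i j ≤ 25 * a + 5 * (1 - a) * (∑ i, l i ^ 2) - ∑ i, l i ^ 3
      - (l 1 - l 0) ^ 2 * (5 - l 0 - 4 * a) := by
  have r0 := hrow 0
  have r1 := hrow 1
  have r2 := hrow 2
  have r3 := hrow 3
  have r4 := hrow 4
  have k01 := hK 0 1 (by decide)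
  have k02 := hK 0 2 (by decide)
  have k03 := hK 0 3 (by decide)
  have k04 := hK 0 4 (by decide)
  have k12 := hK 1 2 (by decide)
  have k13 := hK 1 3 (by decide)
  have k14 := hK 1 4 (by decide)
  have k23 := hK 2 3 (by decide)
  have k24 := hK 2 4 (by decide)
  have k34 := hK 3 4 (by decide)
  simp only [Fin.sum_univ_five] at r0 r1 r2 r3 r4 hs ⊢
  rw [hd, hsym 1 0] at r1
  rw [hd, hsym 2 0, hsym 2 1] at r2
  rw [hd, hsym 3 0, hsym 3 1, hsym 3 2] at r3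
  rw [hd, hsym 4 0, hsym 4 1, hsym 4 2, hsym 4 3] at r4
  rw [hd] at r0
  simp only [hd]
  rw [hsym 1 0, hsym 2 0, hsym 2 1, hsym 3 0, hsym 3 1, hsym 3 2, hsym 4 0, hsym 4 1, hsym 4 2,
    hsym 4 3]
  generalize K 0 1 = c01 at *
  generalize K 0 2 = c02 at *
  generalize K 0 3 = c03 at *
  generalize K 0 4 = c04 at *
  generalize K 1 2 = c12 at *
  generalize K 1 3 = c13 at *
  generalize K 1 4 = c14 at *
  generalize K 2 3 = c23 at *
  generalize K 2 4 = c24 at *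
  generalize K 3 4 = c34 at *
  generalize l 0 = l0 at *
  generalize l 1 = l1 at *
  generalize l 2 = l2 at *
  generalize l 3 = l3 at *
  generalize l 4 = l4 at *
  -- the squares of the differences
  have d1 : 0 ≤ l1 - l0 := by linarith
  have q : ∀ z : ℝ, l1 ≤ z → 0 ≤ (z - l0) ^ 2 - (l1 - l0) ^ 2 := by
    intro z hz
    nlinarith
  have t02 := mul_nonneg (q l2 h12) (sub_nonneg.2 k02)
  have t03 := mul_nonneg (q l3 h13) (sub_nonneg.2 k03)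
  have t04 := mul_nonneg (q l4 h14) (sub_nonneg.2 k04)
  have t12 := mul_nonneg (sq_nonneg (l1 - l2)) (sub_nonneg.2 k12)
  have t13 := mul_nonneg (sq_nonneg (l1 - l3)) (sub_nonneg.2 k13)
  have t14 := mul_nonneg (sq_nonneg (l1 - l4)) (sub_nonneg.2 k14)
  have t23 := mul_nonneg (sq_nonneg (l2 - l3)) (sub_nonneg.2 k23)
  have t24 := mul_nonneg (sq_nonneg (l2 - l4)) (sub_nonneg.2 k24)
  have t34 := mul_nonneg (sq_nonneg (l3 - l4)) (sub_nonneg.2 k34)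
  have e0 : c01 = 5 - l0 - c02 - c03 - c04 := by linarith
  have e1 : c12 = 5 - l1 - c01 - c13 - c14 := by linarith
  have e2 : c23 = 5 - l2 - c02 - c12 - c24 := by linarith
  have e3 : c34 = 5 - l3 - c03 - c13 - c23 := by linarith
  have e4 : l4 = 5 - l0 - l1 - l2 - l3 := by linarith
  have key : 25 * a + 5 * (1 - a) * (l0 ^ 2 + l1 ^ 2 + l2 ^ 2 + l3 ^ 2 + l4 ^ 2)
      - (l0 ^ 3 + l1 ^ 3 + l2 ^ 3 + l3 ^ 3 + l4 ^ 3) - (l1 - l0) ^ 2 * (5 - l0 - 4 * a)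
      - 2 * (l0 * l1 * c01 + l0 * l2 * c02 + l0 * l3 * c03 + l0 * l4 * c04 + l1 * l2 * c12
        + l1 * l3 * c13 + l1 * l4 * c14 + l2 * l3 * c23 + l2 * l4 * c24 + l3 * l4 * c34) =
      ((l2 - l0) ^ 2 - (l1 - l0) ^ 2) * (c02 - a) + ((l3 - l0) ^ 2 - (l1 - l0) ^ 2) * (c03 - a)
      + ((l4 - l0) ^ 2 - (l1 - l0) ^ 2) * (c04 - a) + (l1 - l2) ^ 2 * (c12 - a)
      + (l1 - l3) ^ 2 * (c13 - a) + (l1 - l4) ^ 2 * (c14 - a) + (l2 - l3) ^ 2 * (c23 - a)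
      + (l2 - l4) ^ 2 * (c24 - a) + (l3 - l4) ^ 2 * (c34 - a) := by
    have s0 : c01 + c02 + c03 + c04 = 5 - l0 := by linarith
    have s1 : c01 + c12 + c13 + c14 = 5 - l1 := by linarith
    have s2 : c02 + c12 + c23 + c24 = 5 - l2 := by linarith
    have s3 : c03 + c13 + c23 + c34 = 5 - l3 := by linarith
    have s4 : c04 + c14 + c24 + c34 = 5 - l4 := by linarith
    have hs' : l0 + l1 + l2 + l3 + l4 = 5 := hs
    linear_combination (-(l0 ^ 2) + (l1 - l0) ^ 2) * s0 - l1 ^ 2 * s1 - l2 ^ 2 * s2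
      - l3 ^ 2 * s3 - l4 ^ 2 * s4 - a * (l0 + l1 + l2 + l3 + l4 + 5) * hs'
  linarith

/-- the two inequalities in increasing order -/
theorem fin_sorted {s : ℝ} (hs0 : 0 < s) (hs1 : s ≤ 2 / 3) (l : Fin 5 → ℝ)
    (K : Fin 5 → Fin 5 → ℝ) (hsym : ∀ i j, K i j = K j i) (hd : ∀ i, K i i = 0)
    (hrow : ∀ i, ∑ j, K i j = 5 - l i) (hs : ∑ i, l i = 5)
    (hK : ∀ i j, i ≠ j → 1 - s ≤ K i j) (hl : ∀ i, 1 - s ≤ l i) (hm : Monotone l) :
    135 + (36 - 592 / 3 * s) * (∑ i, l i ^ 2 - 5) ≤ FF l K ∧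
      min 135 (135 + 120 * s ^ 2 - 5920 / 9 * s ^ 3) ≤ FF l K := by
  have h01 : l 0 ≤ l 1 := hm (by decide)
  have h12 : l 1 ≤ l 2 := hm (by decide)
  have h23 : l 2 ≤ l 3 := hm (by decide)
  have h34 : l 3 ≤ l 4 := hm (by decide)
  have hmix := mixed l K hsym hd hrow hs hK h01 h12 (h12.trans h23) ((h12.trans h23).trans h34)
  have hl0 := hl 0
  unfold FF
  generalize ∑ i, ∑ j, l i * l j * K i j = Q at hmix ⊢
  simp only [Fin.sum_univ_five] at hs hmix ⊢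
  obtain ⟨u0, e0⟩ : ∃ u, l 0 = 1 + s * u := ⟨(l 0 - 1) / s, by field_simp; ring⟩
  obtain ⟨u1, e1⟩ : ∃ u, l 1 = 1 + s * u := ⟨(l 1 - 1) / s, by field_simp; ring⟩
  obtain ⟨u2, e2⟩ : ∃ u, l 2 = 1 + s * u := ⟨(l 2 - 1) / s, by field_simp; ring⟩
  obtain ⟨u3, e3⟩ : ∃ u, l 3 = 1 + s * u := ⟨(l 3 - 1) / s, by field_simp; ring⟩
  obtain ⟨u4, e4⟩ : ∃ u, l 4 = 1 + s * u := ⟨(l 4 - 1) / s, by field_simp; ring⟩
  rw [e0, e1] at h01
  rw [e1, e2] at h12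
  rw [e2, e3] at h23
  rw [e3, e4] at h34
  rw [e0] at hl0
  simp only [e0, e1, e2, e3, e4] at hs hmix ⊢
  have g01 : u0 ≤ u1 := le_of_mul_le_mul_left (by linarith) hs0
  have g12 : u1 ≤ u2 := le_of_mul_le_mul_left (by linarith) hs0
  have g23 : u2 ≤ u3 := le_of_mul_le_mul_left (by linarith) hs0
  have g34 : u3 ≤ u4 := le_of_mul_le_mul_left (by linarith) hs0
  have g0 : -1 ≤ u0 := le_of_mul_le_mul_left (by linarith) hs0
  have gs : u0 + u1 + u2 + u3 + u4 = 0 := by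
    have : s * (u0 + u1 + u2 + u3 + u4) = 0 := by linarith
    rcases mul_eq_zero.1 this with h | h
    · exact absurd h hs0.ne'
    · exact h
  have hA := polyA g0 g01 g12 (g12.trans g23) ((g12.trans g23).trans g34) gs
  set U2 : ℝ := u0 ^ 2 + u1 ^ 2 + u2 ^ 2 + u3 ^ 2 + u4 ^ 2 with hU2
  set U3 : ℝ := u0 ^ 3 + u1 ^ 3 + u2 ^ 3 + u3 ^ 3 + u4 ^ 3 with hU3
  have c2 : (1 + s * u0) ^ 2 + (1 + s * u1) ^ 2 + (1 + s * u2) ^ 2 + (1 + s * u3) ^ 2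
      + (1 + s * u4) ^ 2 = 5 + s ^ 2 * U2 := by
    rw [hU2]
    linear_combination 2 * s * gs
  have c3 : (1 + s * u0) ^ 3 + (1 + s * u1) ^ 3 + (1 + s * u2) ^ 3 + (1 + s * u3) ^ 3
      + (1 + s * u4) ^ 3 = 5 + 3 * s ^ 2 * U2 + s ^ 3 * U3 := by
    rw [hU2, hU3]
    linear_combination 3 * s * gs
  have c4 : (1 + s * u1 - (1 + s * u0)) ^ 2 * (5 - (1 + s * u0) - 4 * (1 - s)) =
      s ^ 3 * ((4 - u0) * (u1 - u0) ^ 2) := by ring
  rw [c2, c3, c4] at hmix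
  rw [c2, c3]
  have hs3 : 0 < s ^ 3 := by positivity
  have hs2 : 0 < s ^ 2 := by positivity
  have hsl : 0 ≤ (4 - u0) * (u1 - u0) ^ 2 := mul_nonneg (by linarith) (sq_nonneg _)
  set Z : ℝ := (4 - u0) * (u1 - u0) ^ 2 with hZ
  -- the bound of the function
  have hF : 135 + 36 * s ^ 2 * U2 + s ^ 3 * (112 * U3 - 160 * U2 + 32 * Z) ≤
      1875 - 300 * (5 + s ^ 2 * U2) + 80 * (5 + 3 * s ^ 2 * U2 + s ^ 3 * U3) - 32 * Q := by
    have : 1875 - 300 * (5 + s ^ 2 * U2) + 80 * (5 + 3 * s ^ 2 * U2 + s ^ 3 * U3)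
        - 32 * (25 * (1 - s) + 5 * (1 - (1 - s)) * (5 + s ^ 2 * U2)
          - (5 + 3 * s ^ 2 * U2 + s ^ 3 * U3) - s ^ 3 * Z) =
        135 + 36 * s ^ 2 * U2 + s ^ 3 * (112 * U3 - 160 * U2 + 32 * Z) := by ring
    linarith
  have h1 : 135 + (36 - 592 / 3 * s) * (5 + s ^ 2 * U2 - 5) ≤
      1875 - 300 * (5 + s ^ 2 * U2) + 80 * (5 + 3 * s ^ 2 * U2 + s ^ 3 * U3) - 32 * Q := by
    refine le_trans ?_ hF
    have := mul_nonneg hs3.le hA
    linarith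
  refine ⟨h1, ?_⟩
  have hU20 : 0 ≤ U2 := by positivity
  by_cases hc : U2 ≤ 10 / 3
  · by_cases hk : 0 ≤ 36 - 592 / 3 * s
    · refine (min_le_left _ _).trans (le_trans ?_ h1)
      have := mul_nonneg hk (mul_nonneg hs2.le hU20)
      linarith
    · push Not at hk
      refine (min_le_right _ _).trans (le_trans ?_ h1)
      have h2 : (36 - 592 / 3 * s) * (s ^ 2 * (10 / 3)) ≤ (36 - 592 / 3 * s) * (s ^ 2 * U2) :=
        mul_le_mul_of_nonpos_left (mul_le_mul_of_nonneg_left hc hs2.le) hk.le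
      linarith
  · push Not at hc
    refine (min_le_right _ _).trans (le_trans ?_ hF)
    have hN := polyN (v0 := u0 + 1) (v1 := u1 + 1) (v2 := u2 + 1) (v3 := u3 + 1) (v4 := u4 + 1)
      (by linarith) (by linarith) (by linarith) (by linarith) (by linarith) (by linarith)
    have hN' : 0 ≤ 56 * U3 - 53 * U2 + 2150 / 9 := by
      have e : 56 * ((u0 + 1) ^ 3 + (u1 + 1) ^ 3 + (u2 + 1) ^ 3 + (u3 + 1) ^ 3 + (u4 + 1) ^ 3)
        - 221 * ((u0 + 1) ^ 2 + (u1 + 1) ^ 2 + (u2 + 1) ^ 2 + (u3 + 1) ^ 2 + (u4 + 1) ^ 2)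
        + 9575 / 9 = 56 * U3 - 53 * U2 + 2150 / 9 := by
        rw [hU2, hU3]
        linear_combination (3 * 56 - 2 * 221) * gs
      rwa [e] at hN
    -- interpolation between `0` and `2 / 3`
    have h3 : 0 ≤ 36 * (U2 - 10 / 3) + s * (112 * U3 - 160 * U2 + 5920 / 9) := by
      have h4 : 36 * (U2 - 10 / 3) + s * (112 * U3 - 160 * U2 + 5920 / 9) =
          (1 - 3 / 2 * s) * (36 * (U2 - 10 / 3))
          + 3 / 2 * s * (4 / 3 * (56 * U3 - 53 * U2 + 2150 / 9)) := by ring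
      rw [h4]
      have h5 : 0 ≤ (1 - 3 / 2 * s) * (36 * (U2 - 10 / 3)) :=
        mul_nonneg (by linarith) (by linarith)
      have h6 : 0 ≤ 3 / 2 * s * (4 / 3 * (56 * U3 - 53 * U2 + 2150 / 9)) :=
        mul_nonneg (by linarith) (by linarith)
      linarith
    have h7 := mul_nonneg hs2.le h3
    have h8 := mul_nonneg hs3.le hsl
    have e9 : 135 + 36 * s ^ 2 * U2 + s ^ 3 * (112 * U3 - 160 * U2 + 32 * Z) =
        (135 + 120 * s ^ 2 - 5920 / 9 * s ^ 3)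
        + s ^ 2 * (36 * (U2 - 10 / 3) + s * (112 * U3 - 160 * U2 + 5920 / 9))
        + 32 * (s ^ 3 * Z) := by ring
    rw [e9]
    linarith

/-- the two inequalities -/
theorem fin_ineq {s : ℝ} (hs0 : 0 < s) (hs1 : s ≤ 2 / 3) (l : Fin 5 → ℝ)
    (K : Fin 5 → Fin 5 → ℝ) (hsym : ∀ i j, K i j = K j i) (hd : ∀ i, K i i = 0)
    (hrow : ∀ i, ∑ j, K i j = 5 - l i) (hs : ∑ i, l i = 5)
    (hK : ∀ i j, i ≠ j → 1 - s ≤ K i j) (hl : ∀ i, 1 - s ≤ l i) :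
    135 + (36 - 592 / 3 * s) * (∑ i, l i ^ 2 - 5) ≤ FF l K ∧
      min 135 (135 + 120 * s ^ 2 - 5920 / 9 * s ^ 3) ≤ FF l K := by
  set σ : Equiv.Perm (Fin 5) := Tuple.sort l with hσ
  have hm : Monotone (l ∘ σ) := Tuple.monotone_sort l
  have h := fin_sorted hs0 hs1 (l ∘ σ) (fun i j => K (σ i) (σ j)) (fun i j => hsym _ _)
    (fun i => hd _) (fun i => by
      show ∑ j, K (σ i) (σ j) = 5 - l (σ i)
      rw [← hrow (σ i)]
      exact Equiv.sum_comp σ (fun j => K (σ i) j))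
    (by rw [← hs]; exact Equiv.sum_comp σ l)
    (fun i j hij => hK _ _ fun h => hij (σ.injective h)) (fun i => hl _) hm
  have e1 : ∑ i, (l ∘ σ) i ^ 2 = ∑ i, l i ^ 2 := Equiv.sum_comp σ fun i => l i ^ 2
  have e2 : FF (l ∘ σ) (fun i j => K (σ i) (σ j)) = FF l K := by
    unfold FF
    rw [e1]
    have e3 : ∑ i, (l ∘ σ) i ^ 3 = ∑ i, l i ^ 3 := Equiv.sum_comp σ fun i => l i ^ 3
    have e4 : ∑ i, ∑ j, (l ∘ σ) i * (l ∘ σ) j * K (σ i) (σ j) = ∑ i, ∑ j, l i * l j * K i j := by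
      have : ∀ i, ∑ j, (l ∘ σ) i * (l ∘ σ) j * K (σ i) (σ j) =
          ∑ j, l (σ i) * l j * K (σ i) j := fun i =>
        Equiv.sum_comp σ fun j => l (σ i) * l j * K (σ i) j
      simp only [this]
      exact Equiv.sum_comp σ fun i => ∑ j, l i * l j * K i j
    rw [e3, e4]
  rw [e1, e2] at h
  exact h

end Pool.Agent.H51.NE
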