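import Pool.Agent.H31EE.Main
import Pool.Agent.H51.NE.Pt

/-!
# Einstein tensors in dimension six with a one-sided bound of the sectional curvature towards zero
-/

set_option autoImplicit false

open scoped BigOperators

namespace Pool.Agent.H51.NE

open Hopf6 Pool.Agent.W714.HE Pool.Agent.W714.ES Pool.Agent.H31EE

theorem ein_core3 {s : ℝ} (hs0 : 0 < s) (hs1 : s ≤ 2 / 3) {R : Ten} (hR : IsCurv R)
    (hE : ∀ a b, Rc R a b = if a = b then 5 else 0)
    (h : ∀ z : Fin 6 → ℝ, ∑ a, z a ^ 2 = 1 → ∀ y, (1 - s) * area2 z y ≤ quad R z y) :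
    135 + (36 - 592 / 3 * s) * ((nS R - 60) / 32) ≤ 135 / 5760 * gb R ∧
      min 135 (135 + 120 * s ^ 2 - 5920 / 9 * s ^ 3) ≤ 135 / 5760 * gb R := by
  obtain ⟨ι, _, ⟨D⟩⟩ := exists_design
  have hJJ : D.av (mJJ R) = 5 + (nS R - 60) / 32 := by
    rw [D.av_JJ hR, nR_ein hE]
    ring
  constructor
  · have h1 : 0 ≤ D.av (fun x => ff R x + (mJJ R x * (-(36 - 592 / 3 * s))
        + (5 * (36 - 592 / 3 * s) - 135))) :=
      D.av_nonneg fun i => by
        have := (ff_ge hs0 hs1 hR hE (D.unit i) h).1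
        linarith
    have h2 : D.av (fun x => ff R x + (mJJ R x * (-(36 - 592 / 3 * s))
        + (5 * (36 - 592 / 3 * s) - 135))) = D.av (ff R) + (D.av (mJJ R) * (-(36 - 592 / 3 * s))
          + (5 * (36 - 592 / 3 * s) - 135)) := by
      rw [Design.av_add, Design.av_add, Design.av_one, Design.av_mul]
    rw [h2, av_ff D hR hE, hJJ] at h1
    linarith
  · have h1 : 0 ≤ D.av (fun x => ff R x + -(min 135 (135 + 120 * s ^ 2 - 5920 / 9 * s ^ 3))) :=
      D.av_nonneg fun i => by
        have := (ff_ge hs0 hs1 hR hE (D.unit i) h).2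
        linarith
    have h2 : D.av (fun x => ff R x + -(min 135 (135 + 120 * s ^ 2 - 5920 / 9 * s ^ 3))) =
        D.av (ff R) + -(min 135 (135 + 120 * s ^ 2 - 5920 / 9 * s ^ 3)) := by
      rw [Design.av_add, Design.av_one]
    rw [h2, av_ff D hR hE] at h1
    linarith

section
variable {V : Type*} [NormedAddCommGroup V] [InnerProductSpace ℝ V]
variable (e : OrthonormalBasis (Fin 6) ℝ V) {R : V → V → V → V → ℝ}

theorem comp_lower (hR : AlgCurv R) {c a : ℝ} (hc : 0 < c) (h : SecGE R (a * c))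
    (x : Fin 6 → ℝ) (hx : ∑ i, x i ^ 2 = 1) (y : Fin 6 → ℝ) :
    a * area2 x y ≤ quad (scl c⁻¹ (tn e R)) x y := by
  have hS : SecLE (fun x y z w => - R x y z w) ((-a) * c) := by
    intro u v hu hv huv
    have := h u v hu hv huv
    linarith
  have h1 := comp_bound1 e (neg_curv hR) hc hS x hx y
  have h2 : quad (scl c⁻¹ (tn e fun x y z w => - R x y z w)) x y =
      - quad (scl c⁻¹ (tn e R)) x y := by
    unfold quad scl tn
    simp only [← Finset.sum_neg_distrib]
    refine Finset.sum_congr rfl fun a _ => Finset.sum_congr rfl fun b _ =>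
      Finset.sum_congr rfl fun i _ => Finset.sum_congr rfl fun j _ => ?_
    ring
  rw [h2] at h1
  linarith

/-- the lower bounds, positive case -/
theorem gbc_pos3 {a : ℝ} (ha0 : 1 / 3 ≤ a) (ha1 : a < 1) (hR : AlgCurv R) {c : ℝ} (hc : 0 < c)
    (hE : Einstein e R c) (h : SecGE R (a * c)) :
    (1 + (148 * a - 121) / 3240 * (weylSq e R c / c ^ 2)) * roundGB c ≤ gbc e R ∧
      min 1 (1 + 8 / 9 * (1 - a) ^ 2 - 1184 / 243 * (1 - a) ^ 3) * roundGB c ≤ gbc e R := by
  have h1 := ein_core3 (by linarith : (0 : ℝ) < 1 - a) (by linarith)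
    (scl_curv (tn_curv e hR) c⁻¹) (Rc_ein e hR hc hE)
    (fun x hx y => by
      rw [sub_sub_cancel]
      exact comp_lower e hR hc h x hx y)
  rw [nS_weyl e hR hc hE, gb_scl] at h1
  have hc3 : 0 < c ^ 3 := by positivity
  have hpi := Real.pi_pos
  have e1 : gbc e R = 1 / ((8 * Real.pi) ^ 3 * 6) * gb (tn e R) := gbc_eq e R
  have e2 : gb (tn e R) = c ^ 3 * (c⁻¹ ^ 3 * gb (tn e R)) := by field_simp
  have key : ∀ u : ℝ, 135 * u ≤ 135 / 5760 * (c⁻¹ ^ 3 * gb (tn e R)) →
      u * roundGB c ≤ gbc e R := by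
    intro u hu
    have h2 : 5760 * u ≤ c⁻¹ ^ 3 * gb (tn e R) := by linarith
    have h3 : 1 / ((8 * Real.pi) ^ 3 * 6) * (c ^ 3 * (5760 * u)) = u * roundGB c := by
      unfold roundGB
      field_simp
      ring
    rw [← h3, e1, e2]
    exact mul_le_mul_of_nonneg_left (mul_le_mul_of_nonneg_left h2 hc3.le) (by positivity)
  refine ⟨key _ ?_, key _ ?_⟩
  · refine le_trans (le_of_eq ?_) h1.1
    ring
  · refine le_trans (le_of_eq ?_) h1.2
    rw [mul_min_of_nonneg _ _ (by norm_num : (0 : ℝ) ≤ 135)]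
    congr 1
    · norm_num
    · ring

/-- the upper bounds, negative case -/
theorem gbc_neg3 {a : ℝ} (ha0 : 1 / 3 ≤ a) (ha1 : a < 1) (hR : AlgCurv R) {c : ℝ} (hc : 0 < c)
    (hE : Einstein e R (-c)) (h : SecLE R (-(a * c))) :
    gbc e R ≤ -((1 + (148 * a - 121) / 3240 * (weylSq e R (-c) / c ^ 2)) * roundGB c) ∧
      gbc e R ≤ -(min 1 (1 + 8 / 9 * (1 - a) ^ 2 - 1184 / 243 * (1 - a) ^ 3) * roundGB c) := by
  have hE' : Einstein e (fun x y z w => - R x y z w) c := by
    intro v w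
    have := hE v w
    rw [Finset.sum_neg_distrib, this]
    ring
  have hS : SecGE (fun x y z w => - R x y z w) (a * c) := by
    intro x y hx hy hxy
    have := h x y hx hy hxy
    linarith
  have h1 := gbc_pos3 e ha0 ha1 (neg_curv hR) hc hE' hS
  rw [weylSq_neg] at h1
  have h2 : gbc e (fun x y z w => - R x y z w) = - gbc e R := by
    rw [gbc_eq, gbc_eq]
    have : tn e (fun x y z w => - R x y z w) = fun a b c d => - tn e R a b c d := rfl
    rw [gb_neg]
    ring
  rw [h2] at h1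
  exact ⟨by linarith [h1.1], by linarith [h1.2]⟩

/-- the constant is positive for `a = 343 / 1000` -/
theorem const_343 : (1 : ℝ) / 1000 ≤
    min 1 (1 + 8 / 9 * (1 - 343 / 1000) ^ 2 - 1184 / 243 * (1 - 343 / 1000) ^ 3) := by
  refine le_min (by norm_num) (by norm_num)

theorem const_mono {a : ℝ} (ha : 343 / 1000 ≤ a) (ha1 : a < 1) :
    (1 : ℝ) / 1000 ≤ 1 + 8 / 9 * (1 - a) ^ 2 - 1184 / 243 * (1 - a) ^ 3 := by
  set s : ℝ := 1 - a with hs
  have hs0 : 0 < s := by linarith
  have hs1 : s ≤ 657 / 1000 := by linarith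
  have h1 : 8 / 9 * s ^ 2 - 1184 / 243 * s ^ 3 = -(1184 / 243 * (s ^ 2 * (s - 27 / 148))) := by
    ring
  have h2 : s ^ 2 * (s - 27 / 148) ≤ (657 / 1000) ^ 2 * (657 / 1000 - 27 / 148) := by
    rcases le_or_gt s (27 / 148) with h | h
    · have : s ^ 2 * (s - 27 / 148) ≤ 0 :=
        mul_nonpos_of_nonneg_of_nonpos (by positivity) (by linarith)
      norm_num
      linarith
    · exact mul_le_mul (pow_le_pow_left₀ hs0.le hs1 2) (by linarith) (by linarith)
        (by positivity)
  have h3 : (1184 : ℝ) / 243 * ((657 / 1000) ^ 2 * (657 / 1000 - 27 / 148)) ≤ 999 / 1000 := by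
    norm_num
  linarith

/-- Einstein tensors with pinched nonpositive curvature: two ranges of the Einstein constant -/
theorem pinched (hR : AlgCurv R) {c κ : ℝ} (hc : 0 < c) (hκ : 0 < κ) (hE : Einstein e R (-κ))
    (hl : SecGE R (-c)) (hu : SecLE R (-(343 / 2000 * c))) :
    gbc e R ≤ -(1 / 1000 * roundGB κ) := by
  have hr := roundGB_pos hκ
  by_cases h : c ≤ 2 * κ
  · have h1 := ein_point_neg e hR hκ hE (by
      intro x y hx hy hxy
      have h2 := hl x y hx hy hxy
      have h3 := hu x y hx hy hxy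
      constructor <;> linarith)
    linarith
  · push Not at h
    have h1 := (gbc_neg3 e (a := 343 / 1000) (by norm_num) (by norm_num) hR hκ hE (by
      intro x y hx hy hxy
      have h3 := hu x y hx hy hxy
      linarith)).2
    have h2 := mul_le_mul_of_nonneg_right const_343 hr.le
    linarith

end

end Pool.Agent.H51.NE
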