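import Mathlib

/-!
# Numerical inequalities for five numbers
-/

set_option autoImplicit false

open scoped BigOperators

namespace Pool.Agent.H51.NE

/-- five numbers with sum zero, the first two being the smallest ones -/
theorem polyA {u0 u1 u2 u3 u4 : ℝ} (h0 : -1 ≤ u0) (h01 : u0 ≤ u1) (h2 : u1 ≤ u2) (h3 : u1 ≤ u3)
    (h4 : u1 ≤ u4) (hs : u0 + u1 + u2 + u3 + u4 = 0) :
    0 ≤ 3 * (u0 ^ 3 + u1 ^ 3 + u2 ^ 3 + u3 ^ 3 + u4 ^ 3) + (u0 ^ 2 + u1 ^ 2 + u2 ^ 2 + u3 ^ 2 + u4 ^ 2)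
      + 6 / 7 * ((4 - u0) * (u1 - u0) ^ 2) := by
  set w : ℝ := -(u0 + u1) / 3 with hw
  have hu0 : u0 ≤ 0 := by linarith
  have k : ∀ z, u1 ≤ z → 0 ≤ (z - w) ^ 2 * (3 * z + 6 * w + 1) := by
    intro z hz
    refine mul_nonneg (sq_nonneg _) ?_
    have : 3 * z + 6 * w + 1 = 3 * (z - u1) + (u1 - u0) + (1 - u0) := by
      rw [hw]
      ring
    rw [this]
    linarith
  have k2 := k u2 h2
  have k3 := k u3 h3
  have k4 := k u4 h4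
  set p : ℝ := u0 + u1 with hp
  set d : ℝ := u1 - u0 with hd
  have hd0 : 0 ≤ d := by linarith
  have hp2 : 0 ≤ p + 2 := by linarith
  have hp3 : 0 ≤ 51 * p + 110 := by linarith
  have e : 3 * (u0 ^ 3 + u1 ^ 3 + u2 ^ 3 + u3 ^ 3 + u4 ^ 3)
      + (u0 ^ 2 + u1 ^ 2 + u2 ^ 2 + u3 ^ 2 + u4 ^ 2) + 6 / 7 * ((4 - u0) * (u1 - u0) ^ 2) =
      (u2 - w) ^ 2 * (3 * u2 + 6 * w + 1) + (u3 - w) ^ 2 * (3 * u3 + 6 * w + 1)
      + (u4 - w) ^ 2 * (3 * u4 + 6 * w + 1)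
      + (5 / 12 * (p ^ 2 * (p + 2)) + 1 / 28 * (d ^ 2 * (51 * p + 110)) + 3 / 7 * d ^ 3) := by
    have e4 : u4 = -(u0 + u1 + u2 + u3) := by linarith
    rw [e4, hw, hp, hd]
    ring
  rw [e]
  have a1 : 0 ≤ p ^ 2 * (p + 2) := mul_nonneg (sq_nonneg _) hp2
  have a2 : 0 ≤ d ^ 2 * (51 * p + 110) := mul_nonneg (sq_nonneg _) hp3
  have a3 : 0 ≤ d ^ 3 := pow_nonneg hd0 3
  linarith

/-- the one-variable function of the second inequality -/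
theorem psi_nonneg {v : ℝ} (h : 103 / 168 ≤ v) : 0 ≤ (v - 5 / 3) ^ 2 * (56 * v - 103 / 3) :=
  mul_nonneg (sq_nonneg _) (by linarith)

theorem psi_ge {v : ℝ} (h : 0 ≤ v) : -(2575 / 27) ≤ (v - 5 / 3) ^ 2 * (56 * v - 103 / 3) := by
  have h1 : 0 ≤ v * (56 * v ^ 2 - 221 * v + 270) :=
    mul_nonneg h (by nlinarith [sq_nonneg (v - 221 / 112)])
  have h2 : (v - 5 / 3) ^ 2 * (56 * v - 103 / 3) + 2575 / 27 =
      v * (56 * v ^ 2 - 221 * v + 270) := by ring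
  linarith

theorem three_small {a b c p q : ℝ} (ha0 : 0 ≤ a) (hb0 : 0 ≤ b) (hc0 : 0 ≤ c)
    (ha : a ≤ 103 / 168) (hb : b ≤ 103 / 168) (hc : c ≤ 103 / 168)
    (hs : a + b + c + p + q = 5) :
    0 ≤ 56 * (a ^ 3 + b ^ 3 + c ^ 3 + p ^ 3 + q ^ 3)
      - 221 * (a ^ 2 + b ^ 2 + c ^ 2 + p ^ 2 + q ^ 2) + 9575 / 9 := by
  have k : ∀ v : ℝ, 0 ≤ v → v ≤ 103 / 168 → -(136 * v) ≤ 56 * v ^ 3 - 221 * v ^ 2 := by
    intro v h0 h1
    have h2 : 0 ≤ v * (56 * v ^ 2 - 221 * v + 136) :=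
      mul_nonneg h0 (by nlinarith [sq_nonneg v])
    linarith
  have ka := k a ha0 ha
  have kb := k b hb0 hb
  have kc := k c hc0 hc
  set t : ℝ := a + b + c with ht
  have ht0 : 0 ≤ t := by linarith
  have ht1 : t ≤ 103 / 56 := by linarith
  set w : ℝ := (5 - t) / 2 with hw
  have hq : q = 2 * w - p := by rw [hw]; linarith
  have e : 56 * (p ^ 3 + q ^ 3) - 221 * (p ^ 2 + q ^ 2) =
      2 * (56 * w ^ 3 - 221 * w ^ 2) + (p - w) ^ 2 * (336 * w - 442) := by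
    rw [hq]
    ring
  have h5 : 0 ≤ (p - w) ^ 2 * (336 * w - 442) := mul_nonneg (sq_nonneg _) (by rw [hw]; linarith)
  have h6 : 0 ≤ 2 * (56 * w ^ 3 - 221 * w ^ 2) - 136 * t + 9575 / 9 := by
    have e2 : t = 5 - 2 * w := by rw [hw]; ring
    have hw1 : 177 / 112 ≤ w := by rw [hw]; linarith
    have hw2 : w ≤ 5 / 2 := by rw [hw]; linarith
    rw [e2]
    nlinarith [mul_nonneg (sub_nonneg.2 hw1) (sq_nonneg (w - 23 / 10)),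
      mul_nonneg (sub_nonneg.2 hw2) (sq_nonneg (w - 23 / 10)), sq_nonneg (w - 23 / 10)]
  linarith

/-- five nonnegative numbers with sum five, in increasing order -/
theorem polyN {v0 v1 v2 v3 v4 : ℝ} (h0 : 0 ≤ v0) (h01 : v0 ≤ v1) (h12 : v1 ≤ v2) (h23 : v2 ≤ v3)
    (h34 : v3 ≤ v4) (hs : v0 + v1 + v2 + v3 + v4 = 5) :
    0 ≤ 56 * (v0 ^ 3 + v1 ^ 3 + v2 ^ 3 + v3 ^ 3 + v4 ^ 3)
      - 221 * (v0 ^ 2 + v1 ^ 2 + v2 ^ 2 + v3 ^ 2 + v4 ^ 2) + 9575 / 9 := by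
  by_cases hc : 103 / 168 ≤ v2
  · have k0 := psi_ge h0
    have k1 := psi_ge (h0.trans h01)
    have k2 := psi_nonneg hc
    have k3 := psi_nonneg (hc.trans h23)
    have k4 := psi_nonneg ((hc.trans h23).trans h34)
    have e : 56 * (v0 ^ 3 + v1 ^ 3 + v2 ^ 3 + v3 ^ 3 + v4 ^ 3)
      - 221 * (v0 ^ 2 + v1 ^ 2 + v2 ^ 2 + v3 ^ 2 + v4 ^ 2) + 9575 / 9 =
      (v0 - 5 / 3) ^ 2 * (56 * v0 - 103 / 3) + (v1 - 5 / 3) ^ 2 * (56 * v1 - 103 / 3)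
      + (v2 - 5 / 3) ^ 2 * (56 * v2 - 103 / 3) + (v3 - 5 / 3) ^ 2 * (56 * v3 - 103 / 3)
      + (v4 - 5 / 3) ^ 2 * (56 * v4 - 103 / 3) + 5150 / 27
      - 270 * (v0 + v1 + v2 + v3 + v4 - 5) := by ring
    rw [e, hs]
    linarith
  · push Not at hc
    exact three_small h0 (h0.trans h01) ((h0.trans h01).trans h12) (by linarith) (by linarith)
      hc.le hs

end Pool.Agent.H51.NE
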